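import Pool.Agent.Helper43.Gr.Goals

/-! # Packet R6 -/

set_option autoImplicit false

namespace Pool.Agent.Helper43.Gr.PkR6

open Finset
open Helper18.Cusp (Concl)

theorem two_choose (n : ℕ) : 2 * (n + 1).choose 2 = (n + 1) * n := by
  have h := Nat.add_one_mul_choose_eq n 1
  rw [Nat.choose_one_right, show 1 + 1 = 2 from rfl] at h
  omega

theorem goalR6 (h5 : GoalR5) : GoalR6 := by
  intro s m d K hm hs hK hS halt
  by_cases hall : ∀ i, K < m i →
    ∑ j ∈ range (i + 1), (m j + 1).choose 2 + (3 * m i + 2).choose 2 ≤ (d + 2).choose 2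
  · exact h5 s m d K hm hs hK hall halt
  · classical
    push Not at hall
    obtain ⟨hi1, hi2⟩ := Nat.find_spec hall
    set i0 := Nat.find hall with hi0
    have hmin : ∀ i, i < i0 → K < m i →
        ∑ j ∈ range (i + 1), (m j + 1).choose 2 + (3 * m i + 2).choose 2 ≤ (d + 2).choose 2 := by
      intro i hi hKi
      by_contra hcon
      push Not at hcon
      exact Nat.find_min hall hi ⟨hKi, hcon⟩
    obtain ⟨M, hM⟩ : ∃ M, M = m i0 := ⟨_, rfl⟩
    rw [← hM] at hi1 hi2
    have his : i0 < s := by
      by_contra hcon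
      have := hs i0 (by omega)
      omega
    have hsum : ∑ j ∈ range (i0 + 1), (m j + 1).choose 2 +
        ∑ j ∈ (range s).filter (fun j => m j < M), (m j + 1).choose 2 ≤
        ∑ j ∈ range s, (m j + 1).choose 2 := by
      rw [← Finset.sum_union]
      · apply Finset.sum_le_sum_of_subset
        intro j hj
        rcases Finset.mem_union.1 hj with h | h
        · rw [mem_range] at h ⊢
          omega
        · exact (Finset.mem_filter.1 h).1
      · rw [Finset.disjoint_left]
        intro j h1 h2
        rw [mem_range] at h1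
        have h3 := (Finset.mem_filter.1 h2).2
        have h4 := hm (show j ≤ i0 by omega)
        omega
    have h10 : 10 * M ^ 2 ≤ ∑ j ∈ (range s).filter (fun j => m j < M), (m j + 1).choose 2 := by
      have := hS i0 (by omega)
      rw [← hM] at this
      exact this
    refine h5 s m d M hm hs (by omega) ?_ (Or.inr ?_)
    · intro i hi
      apply hmin i _ (by omega)
      by_contra hcon
      have := hm (show i0 ≤ i by omega)
      omega
    · have hF : ∑ i : Fin s, (Nat.choose (m (i : ℕ) + 1) 2 : ℤ) =
          ((∑ j ∈ range s, (m j + 1).choose 2 : ℕ) : ℤ) := by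
        rw [Fin.sum_univ_eq_sum_range (fun j => (Nat.choose (m j + 1) 2 : ℤ)) s]
        push_cast
        rfl
      rw [hF]
      have h2 := two_choose (3 * M + 1)
      have h3 : (d + 2).choose 2 + 10 * M ^ 2 + 1 ≤ ∑ j ∈ range s, (m j + 1).choose 2 +
          (3 * M + 2).choose 2 := by omega
      have h4 : (((d + 2).choose 2 : ℕ) : ℤ) + 10 * (M : ℤ) ^ 2 + 1 ≤
          ((∑ j ∈ range s, (m j + 1).choose 2 : ℕ) : ℤ) + (((3 * M + 2).choose 2 : ℕ) : ℤ) := by
        exact_mod_cast h3
      have h5 : 2 * (((3 * M + 2).choose 2 : ℕ) : ℤ) = (3 * (M : ℤ) + 2) * (3 * M + 1) := by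
        exact_mod_cast h2
      have h6 : (2 : ℤ) ≤ M := by
        have : 2 ≤ M := by omega
        exact_mod_cast this
      nlinarith

end Pool.Agent.Helper43.Gr.PkR6
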